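import Pool.Agent.H625R3.OA1

set_option autoImplicit false

/-!
# Orthogonal arrays of index one and strength `q - 1` with `q` symbols

`N(q, q - 1)` for every prime power `q ≥ 4`, and upper bounds for `N(q, q - 1)` for all `q ≥ 3`.
-/

open Pool.Agent.H625R3.OA

namespace Pool.Agent.Results.MP_159373_co.StrengthQMinusOne

/-- For every `q ≥ 3` (not necessarily a prime power) an orthogonal array with `q ^ (q - 1)` rows,
`q` symbols, strength `q - 1` and index one has at most `q + p - 1` columns for every prime factor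
`p` of `q - 1`, and at most `q + 2` columns if `q ≡ 2 mod 3`; and for prime powers `q ≥ 4` this
gives `N(q, q - 1) = q + 1` for odd `q` and `N(q, q - 1) = q + 2` for even `q`. -/
theorem result :
    (∀ q n : ℕ, 3 ≤ q → ∀ A : Fin (q ^ (q - 1)) → Fin n → Fin q,
      IsOA (q ^ (q - 1)) n (q - 1) 1 A →
        (∀ p : ℕ, p.Prime → p ∣ q - 1 → n ≤ q + p - 1) ∧ (q % 3 = 2 → n ≤ q + 2)) ∧
    (∀ q : ℕ, IsPrimePow q → 4 ≤ q → IsN q (q - 1) (if q % 2 = 1 then q + 1 else q + 2)) :=
  ⟨fun _ _ hq _ hA => upper_one hq hA, fun _ hq h4 => isN_one hq h4⟩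

end Pool.Agent.Results.MP_159373_co.StrengthQMinusOne
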