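import Pool.Agent.H625R3.OA1

set_option autoImplicit false

/-!
# Orthogonal arrays of index one and strength `q - 2` with an even number `q` of symbols

`N(q, q - 2) = q + 1` for every power `q ≥ 8` of two, and upper bounds for `N(q, q - 2)` for all
even `q ≥ 4`.
-/

open Pool.Agent.H625R3.OA

namespace Pool.Agent.Results.MP_159373_co.StrengthQMinusTwo

/-- For every even `q ≥ 4` (not necessarily a prime power) an orthogonal array with `q ^ (q - 2)`
rows, `q` symbols, strength `q - 2` and index one has at most `q + 1` columns if `q` is not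
divisible by three, and at most `q + p - 2` columns for every prime factor `p` of `q - 1`; and for
powers `q ≥ 8` of two this gives `N(q, q - 2) = q + 1`. -/
theorem result :
    (∀ q n : ℕ, 4 ≤ q → q % 2 = 0 → ∀ A : Fin (q ^ (q - 2)) → Fin n → Fin q,
      IsOA (q ^ (q - 2)) n (q - 2) 1 A →
        (q % 3 ≠ 0 → n ≤ q + 1) ∧ (∀ p : ℕ, p.Prime → p ∣ q - 1 → n ≤ q + p - 2)) ∧
    (∀ r : ℕ, 3 ≤ r → IsN (2 ^ r) (2 ^ r - 2) (2 ^ r + 1)) :=
  ⟨fun _ _ hq h2 _ hA => upper_two' hq h2 hA, fun _ hr => isN_two hr⟩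

end Pool.Agent.Results.MP_159373_co.StrengthQMinusTwo
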